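import Pool.Agent.Lib.H14I.C5Defs

/-!
Independent sets in the strong powers of the 5-cycle: a code of 51 words of length 5, and the product
with the 5 words (i, 2i) of length 2.
-/

set_option autoImplicit false

namespace H14I.C5

/-- The word whose `i`-th letter is the `i`-th digit of `x` in base five. -/
def word (x : ℕ) : Fin 5 → ZMod 5 := fun i => ((x / 5 ^ (i : ℕ) % 5 : ℕ) : ZMod 5)

/-- Codes (in base five) of the 51 words: the word 11111 and ten orbits of the cyclic shift. -/
def codes : List ℕ := [71, 141, 249, 263, 304, 327, 355, 401, 512, 598, 639, 653, 705, 781, 813, 941, 1064, 1212, 1245, 1315, 1352, 1492, 1520, 1548, 1581, 1599, 1608, 1635, 1657, 1747, 1775, 1792, 1927, 1994, 2005, 2037, 2184, 2196, 2454, 2487, 2549, 2560, 2627, 2712, 2819, 2898, 2936, 2990, 3009, 3063, 3101]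

/-- In some coordinate the two words differ by two or three modulo five. -/
def far (x y : ℕ) : Bool := (List.range 5).any fun i =>
  (x / 5 ^ i % 5 + 5 - y / 5 ^ i % 5) % 5 == 2 || (x / 5 ^ i % 5 + 5 - y / 5 ^ i % 5) % 5 == 3

lemma codes_far : ∀ x ∈ codes, ∀ y ∈ codes, x = y ∨ far x y = true := by decide +kernel

lemma codes_card : codes.toFinset.card = 51 := by decide +kernel

lemma digit_far : ∀ a b : Fin 5, ((a.val + 5 - b.val) % 5 = 2 ∨ (a.val + 5 - b.val) % 5 = 3) →
    ¬ (((a.val : ℕ) : ZMod 5) - ((b.val : ℕ) : ZMod 5) = 0 ∨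
      ((a.val : ℕ) : ZMod 5) - ((b.val : ℕ) : ZMod 5) = 1 ∨
      ((a.val : ℕ) : ZMod 5) - ((b.val : ℕ) : ZMod 5) = -1) := by
  decide

lemma far_spec {x y : ℕ} (h : far x y = true) : ∃ i : Fin 5,
    ¬ (word x i - word y i = 0 ∨ word x i - word y i = 1 ∨ word x i - word y i = -1) := by
  simp only [far, List.any_eq_true, List.mem_range, Bool.or_eq_true, beq_iff_eq] at h
  obtain ⟨i, hi, h⟩ := h
  exact ⟨⟨i, hi⟩, digit_far ⟨x / 5 ^ i % 5, Nat.mod_lt _ (by norm_num)⟩
    ⟨y / 5 ^ i % 5, Nat.mod_lt _ (by norm_num)⟩ h⟩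

lemma word_inj {x y : ℕ} (hx : x ∈ codes) (hy : y ∈ codes) (h : word x = word y) : x = y := by
  rcases codes_far x hx y hy with h1 | h1
  · exact h1
  · obtain ⟨i, hi⟩ := far_spec h1
    exact absurd (Or.inl (by rw [h, sub_self])) hi

/-- 51 independent words of length 5. -/
lemma base : ∃ s : Finset (Fin 5 → ZMod 5), s.card = 51 ∧ (power 5).IsIndepSet (s : Set _) := by
  classical
  refine ⟨codes.toFinset.image word, ?_, ?_⟩
  · rw [Finset.card_image_of_injOn, codes_card]
    intro x hx y hy h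
    exact word_inj (by simpa using hx) (by simpa using hy) h
  · intro u hu v hv huv hadj
    simp only [Finset.coe_image, List.coe_toFinset, Set.mem_image, Set.mem_ofPred_eq] at hu hv
    obtain ⟨x, hx, rfl⟩ := hu
    obtain ⟨y, hy, rfl⟩ := hv
    have hxy : x ≠ y := fun h => huv (by rw [h])
    obtain ⟨i, h1⟩ := far_spec ((codes_far x hx y hy).resolve_left hxy)
    exact h1 (hadj.2 i)

lemma two_mul_far : ∀ d : ZMod 5, (d = 0 ∨ d = 1 ∨ d = -1) → (2 * d = 0 ∨ 2 * d = 1 ∨ 2 * d = -1) →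
    d = 0 := by decide

/-- Product with the five words (i, 2i). -/
lemma step {n m : ℕ} (h : ∃ s : Finset (Fin n → ZMod 5), s.card = m ∧
    (power n).IsIndepSet (s : Set _)) :
    ∃ s : Finset (Fin (n + 2) → ZMod 5), s.card = m * 5 ∧ (power (n + 2)).IsIndepSet (s : Set _) := by
  classical
  obtain ⟨s, hc, hs⟩ := h
  set F : (Fin n → ZMod 5) × ZMod 5 → (Fin (n + 2) → ZMod 5) :=
    fun p => Fin.cons p.2 (Fin.cons (2 * p.2) p.1 : Fin (n + 1) → ZMod 5) with hF
  have hFi : Function.Injective F := by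
    rintro ⟨w, a⟩ ⟨w', a'⟩ h
    have h0 := congrFun h 0
    simp only [hF, Fin.cons_zero] at h0
    subst h0
    have h1 := Fin.cons_right_injective (α := fun _ => ZMod 5) _ h
    have h2 := Fin.cons_right_injective (α := fun _ => ZMod 5) _ h1
    exact Prod.ext h2 rfl
  refine ⟨(s ×ˢ (Finset.univ : Finset (ZMod 5))).image F, ?_, ?_⟩
  · rw [Finset.card_image_of_injective _ hFi, Finset.card_product, hc, Finset.card_univ, ZMod.card]
  · intro u hu v hv huv hadj
    simp only [Finset.coe_image, Finset.coe_product, Finset.coe_univ, Set.mem_image,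
      Set.mem_prod, Set.mem_univ, and_true, Prod.exists, Finset.mem_coe] at hu hv
    obtain ⟨w, a, hw, rfl⟩ := hu
    obtain ⟨w', a', hw', rfl⟩ := hv
    have h0 := hadj.2 0
    have h1 := hadj.2 (Fin.succ 0)
    simp only [hF, Fin.cons_zero, Fin.cons_succ] at h0 h1
    rw [← mul_sub] at h1
    have haa : a = a' := sub_eq_zero.mp (two_mul_far _ h0 h1)
    subst haa
    by_cases hww : w = w'
    · exact huv (by rw [hww])
    · refine hs (Finset.mem_coe.mpr hw) (Finset.mem_coe.mpr hw') hww ⟨hww, fun i => ?_⟩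
      have h2 := hadj.2 i.succ.succ
      simpa only [hF, Fin.cons_succ] using h2

/-- `51 * 5 ^ j` independent words of length `5 + 2 j`. -/
lemma tower (j : ℕ) : ∃ s : Finset (Fin (5 + 2 * j) → ZMod 5), s.card = 51 * 5 ^ j ∧
    (power (5 + 2 * j)).IsIndepSet (s : Set _) := by
  induction j with
  | zero => simpa using base
  | succ j ih =>
    obtain ⟨s, hc, hs⟩ := step ih
    exact ⟨s, by rw [hc, pow_succ, mul_assoc], hs⟩

/-- For every odd `n >= 5` there are `51 * 5 ^ ((n - 5) / 2)` independent words. -/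
theorem exists_indep (n : ℕ) (hn : Odd n) (h5 : 5 ≤ n) :
    ∃ s : Finset (Fin n → ZMod 5), s.card = 51 * 5 ^ ((n - 5) / 2) ∧
      (power n).IsIndepSet (s : Set _) := by
  obtain ⟨k, rfl⟩ := hn
  obtain ⟨j, rfl⟩ : ∃ j, k = j + 2 := ⟨k - 2, by omega⟩
  have h := tower j
  have e : 2 * (j + 2) + 1 = 5 + 2 * j := by ring
  have e2 : (2 * (j + 2) + 1 - 5) / 2 = j := by omega
  rw [e2]
  rw [e]
  exact h

/-- The independence number of the strong power, for odd `n >= 5`. -/
theorem indepNum_ge (n : ℕ) (hn : Odd n) (h5 : 5 ≤ n) :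
    51 * 5 ^ ((n - 5) / 2) ≤ (power n).indepNum := by
  obtain ⟨s, hc, hs⟩ := exists_indep n hn h5
  rw [← hc]
  exact SimpleGraph.IsIndepSet.card_le_indepNum hs

end H14I.C5
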