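import Mathlib

/-!
Definition for MP_a08742_co: the strong powers of the 5-cycle.
-/

set_option autoImplicit false

namespace H14I.C5

/-- The strong power of the 5-cycle: the vertices are the words of length `n` over `Z/5Z`, and two
distinct words are adjacent when they differ by 0, 1 or -1 in every coordinate. -/
def power (n : ℕ) : SimpleGraph (Fin n → ZMod 5) where
  Adj x y := x ≠ y ∧ ∀ i, x i - y i = 0 ∨ x i - y i = 1 ∨ x i - y i = -1
  symm := ⟨fun x y h => ⟨h.1.symm, fun i => by
    rcases h.2 i with h | h | h
    · left; rw [← neg_sub, h, neg_zero]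
    · right; right; rw [← neg_sub, h]
    · right; left; rw [← neg_sub, h, neg_neg]⟩⟩
  loopless := ⟨fun x h => h.1 rfl⟩

end H14I.C5
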