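import Pool.Agent.Lib.H14E.StepE

/-!
# The normal subgroup of the free group of rank two

From the one-step theorems of Lib/H14E: a normal subgroup `H` of the free group `F` of rank two
such that `F ⧸ H` is an Engel `p`-group, with an `F`-invariant homomorphism `ψ : H → ℤ` which
does not vanish on `H ∩ [F, F]`.
-/

set_option autoImplicit false

namespace Pool.Agent.Lib.H14I.EngelOrder

open Pool.Agent.Lib.H14E Pool.Agent.H76.Ext commutatorElement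

theorem goodK_step {p : ℕ} (hstep : StepE p) {F : Type} [Group F] (z : F) :
    ∀ K : Subgroup F, GoodK p z K → ∀ u v, ∃ K', K ≤ K' ∧ GoodK p z K' ∧ Done z K' u v := by
  rintro K ⟨E, _, φ, hφ, rfl, hE⟩ u v
  obtain ⟨N, _, hN, hD⟩ := hstep E (φ z) hE (φ u) (φ v)
  refine ⟨((QuotientGroup.mk' N).comp φ).ker, ?_, ⟨E ⧸ N, inferInstance,
    (QuotientGroup.mk' N).comp φ, (QuotientGroup.mk'_surjective _).comp hφ, rfl, hN⟩, ?_⟩
  · intro x hx
    rw [MonoidHom.mem_ker] at hx ⊢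
    rw [MonoidHom.comp_apply, hx, map_one]
  · have hmem : ∀ x : F, x ∈ ((QuotientGroup.mk' N).comp φ).ker ↔ φ x ∈ N := by
      intro x
      rw [MonoidHom.mem_ker, MonoidHom.comp_apply, QuotientGroup.mk'_apply,
        QuotientGroup.eq_one_iff]
    obtain ⟨n, hn1, hn2⟩ := hD.eng
    obtain ⟨n', hn1', m, hm⟩ := hD.per
    refine ⟨⟨n, hn1, (hmem _).2 ?_⟩, ⟨n', hn1', m, (hmem _).2 ?_⟩⟩
    · rw [eng_map]
      exact hn2
    · rw [map_mul, map_pow, map_zpow]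
      exact hm

/-- The elements of a good quotient which have finite order modulo `⟨z⟩` have `p`-power order
modulo `⟨z⟩`. -/
theorem goodK_ppow {p : ℕ} {F : Type} [Group F] {z : F} {K : Subgroup F} (hK : GoodK p z K)
    {v : F} (hv : ∃ n : ℕ, 1 ≤ n ∧ ∃ m : ℤ, v ^ n * z ^ m ∈ K) :
    ∃ k : ℕ, ∃ m : ℤ, v ^ (p ^ k) * z ^ m ∈ K := by
  obtain ⟨E, _, φ, hφ, rfl, G, _, π, hE, hS⟩ := hK
  obtain ⟨n, hn, m, hm⟩ := hv
  have hz : π (φ z) = 1 := by
    rw [← MonoidHom.mem_ker, hE.ker]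
    exact Subgroup.mem_zpowers _
  have h1 : IsOfFinOrder (π (φ v)) := by
    refine isOfFinOrder_iff_pow_eq_one.2 ⟨n, hn, ?_⟩
    rw [MonoidHom.mem_ker] at hm
    have h2 := congrArg π hm
    rw [map_mul, map_mul, map_pow, map_pow, map_zpow, map_zpow, hz, one_zpow, mul_one,
      map_one] at h2
    exact h2
  obtain ⟨k, hk⟩ := hS.tors _ h1
  rw [← map_pow, ← map_pow, ← MonoidHom.mem_ker, hE.ker, Subgroup.mem_zpowers_iff] at hk
  obtain ⟨j, hj⟩ := hk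
  refine ⟨k, -j, ?_⟩
  rw [MonoidHom.mem_ker, map_mul, ← hj, map_zpow, zpow_neg, mul_inv_cancel]

theorem core {p : ℕ} (hp : p.Prime) (hp2 : p ≠ 2) :
    ∃ (H : Subgroup (FreeGroup (Fin 2))) (_ : H.Normal) (ψ : FreeGroup (Fin 2) → ℤ),
      (∀ x ∈ H, ∀ y ∈ H, ψ (x * y) = ψ x + ψ y) ∧
      (∀ g, ∀ x ∈ H, ψ (g * x * g⁻¹) = ψ x) ∧
      (∀ g, ∃ k : ℕ, g ^ (p ^ k) ∈ H) ∧
      (∀ x y, ∃ n : ℕ, 1 ≤ n ∧ engelComm x y n ∈ H) ∧
      ∃ c ∈ commutator (FreeGroup (Fin 2)), c ∈ H ∧ ψ c ≠ 0 := by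
  classical
  set z : FreeGroup (Fin 2) × Multiplicative ℤ := (1, Multiplicative.ofAdd 1) with hz
  have hzz : ∀ j : ℤ, z ^ j = (1, Multiplicative.ofAdd j) := by
    intro j
    rw [hz, Prod.pow_mk, one_zpow, ← ofAdd_zsmul]
    simp
  set w : FreeGroup (Fin 2) × Multiplicative ℤ :=
    (⁅FreeGroup.of (0 : Fin 2), FreeGroup.of (1 : Fin 2)⁆, 1) with hw
  have hE := cext_prod (FreeGroup (Fin 2))
  obtain ⟨Mt, h1, h2, N, hN, n, hn, h3⟩ := wfill hp hp2 hE (start_stage p) w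
    (free_not_fin _ free_comm_ne)
  have hgood : GoodK p z (Subgroup.normalClosure (Mt : Set (FreeGroup (Fin 2) × Multiplicative ℤ))) :=
    ⟨_, inferInstance, QuotientGroup.mk' _, QuotientGroup.mk'_surjective _,
      QuotientGroup.ker_mk' _, fill_good hE h1 h2⟩
  obtain ⟨K, hK0, hmono, hgK, hdone⟩ := enum_chain z (GoodK p z) _ hgood
    (goodK_step (stepE hp hp2) z)
  have hmem : ∀ x, x ∈ (⨆ i, K i : Subgroup (FreeGroup (Fin 2) × Multiplicative ℤ)) ↔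
      ∃ i, x ∈ K i := fun x => Subgroup.mem_iSup_of_directed hmono.directed_le
  set L := (⨆ i, K i : Subgroup (FreeGroup (Fin 2) × Multiplicative ℤ)) with hL
  have hLn : L.Normal := by
    refine ⟨fun x hx g => ?_⟩
    obtain ⟨i, hi⟩ := (hmem x).1 hx
    obtain ⟨E, _, φ, -, hker, -⟩ := hgK i
    rw [← hker] at hi
    exact (hmem _).2 ⟨i, by rw [← hker]; exact (inferInstance : φ.ker.Normal).conj_mem x hi g⟩
  have hfree : ∀ j : ℤ, ((1 : FreeGroup (Fin 2)), Multiplicative.ofAdd j) ∈ L → j = 0 := by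
    intro j hj
    obtain ⟨i, hi⟩ := (hmem _).1 hj
    obtain ⟨E, _, φ, -, hker, G, _, π, hE', -⟩ := hgK i
    rw [← hker, ← hzz, MonoidHom.mem_ker, map_zpow] at hi
    exact hE'.inf j hi
  have huniq : ∀ (f : FreeGroup (Fin 2)) (i j : ℤ), (f, Multiplicative.ofAdd i) ∈ L →
      (f, Multiplicative.ofAdd j) ∈ L → i = j := by
    intro f i j hi hj
    have h4 := L.mul_mem hi (L.inv_mem hj)
    rw [Prod.inv_mk, Prod.mk_mul_mk, mul_inv_cancel, ← ofAdd_neg, ← ofAdd_add] at h4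
    have h5 := hfree _ h4
    omega
  let H : Subgroup (FreeGroup (Fin 2)) := L.map (MonoidHom.fst _ _)
  have hH : ∀ f, f ∈ H ↔ ∃ i : ℤ, (f, Multiplicative.ofAdd i) ∈ L := by
    intro f
    constructor
    · rintro ⟨⟨f', m⟩, hm, rfl⟩
      exact ⟨Multiplicative.toAdd m, hm⟩
    · rintro ⟨i, hi⟩
      exact ⟨_, hi, rfl⟩
  have hHn : H.Normal := by
    refine ⟨fun x hx g => ?_⟩
    obtain ⟨i, hi⟩ := (hH x).1 hx
    refine (hH _).2 ⟨i, ?_⟩
    have h4 := hLn.conj_mem _ hi (g, 1)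
    rw [Prod.inv_mk, Prod.mk_mul_mk, Prod.mk_mul_mk, one_mul, inv_one, mul_one] at h4
    exact h4
  let ψ : FreeGroup (Fin 2) → ℤ := fun f =>
    if h : ∃ i : ℤ, (f, Multiplicative.ofAdd i) ∈ L then Classical.choose h else 0
  have hψ : ∀ (f : FreeGroup (Fin 2)) (i : ℤ), (f, Multiplicative.ofAdd i) ∈ L → ψ f = i := by
    intro f i hi
    have h4 : ∃ i : ℤ, (f, Multiplicative.ofAdd i) ∈ L := ⟨i, hi⟩
    have h5 : ψ f = Classical.choose h4 := dif_pos h4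
    rw [h5]
    exact huniq f _ _ (Classical.choose_spec h4) hi
  refine ⟨H, hHn, ψ, ?_, ?_, ?_, ?_, ?_⟩
  · intro x hx y hy
    obtain ⟨i, hi⟩ := (hH x).1 hx
    obtain ⟨j, hj⟩ := (hH y).1 hy
    have h4 := L.mul_mem hi hj
    rw [Prod.mk_mul_mk, ← ofAdd_add] at h4
    rw [hψ _ _ h4, hψ _ _ hi, hψ _ _ hj]
  · intro g x hx
    obtain ⟨i, hi⟩ := (hH x).1 hx
    have h4 := hLn.conj_mem _ hi (g, 1)
    rw [Prod.inv_mk, Prod.mk_mul_mk, Prod.mk_mul_mk, one_mul, inv_one, mul_one] at h4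
    rw [hψ _ _ h4, hψ _ _ hi]
  · intro g
    obtain ⟨i, hi⟩ := hdone (g, 1) (g, 1)
    obtain ⟨k, m, hm⟩ := goodK_ppow (hgK i) hi.per
    refine ⟨k, (hH _).2 ⟨m, (hmem _).2 ⟨i, ?_⟩⟩⟩
    rw [hzz, Prod.pow_mk, one_pow, Prod.mk_mul_mk, mul_one, one_mul] at hm
    exact hm
  · intro x y
    obtain ⟨i, hi⟩ := hdone (x, 1) (y, 1)
    obtain ⟨n', hn', h5⟩ := hi.eng
    refine ⟨n', hn', ?_⟩
    have h6 := eng_map (MonoidHom.fst (FreeGroup (Fin 2)) (Multiplicative ℤ)) (x, 1) (y, 1) n'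
    have h7 : engelComm x y n' = (engelComm ((x, 1) : FreeGroup (Fin 2) × Multiplicative ℤ)
        (y, 1) n').1 := h6.symm
    rw [h7]
    exact ⟨_, (hmem _).2 ⟨i, h5⟩, rfl⟩
  · refine ⟨⁅FreeGroup.of (0 : Fin 2), FreeGroup.of (1 : Fin 2)⁆ ^ N, ?_, ?_⟩
    · refine Subgroup.pow_mem _ ?_ N
      rw [commutator_def]
      exact Subgroup.commutator_mem_commutator (Subgroup.mem_top _) (Subgroup.mem_top _)
    · have h4 : (⁅FreeGroup.of (0 : Fin 2), FreeGroup.of (1 : Fin 2)⁆ ^ N,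
          Multiplicative.ofAdd n) ∈ L := by
        refine (hmem _).2 ⟨0, ?_⟩
        rw [hK0]
        have h5 := Subgroup.subset_normalClosure h3
        have h6 : w ^ N * ((1, Multiplicative.ofAdd 1) : FreeGroup (Fin 2) × Multiplicative ℤ) ^ n
            = (⁅FreeGroup.of (0 : Fin 2), FreeGroup.of (1 : Fin 2)⁆ ^ N,
              Multiplicative.ofAdd n) := by
          have h7 := hzz n
          rw [hz] at h7
          rw [h7, hw, Prod.pow_mk, one_pow, Prod.mk_mul_mk, mul_one, one_mul]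
        rw [h6] at h5
        exact h5
      refine ⟨(hH _).2 ⟨n, h4⟩, ?_⟩
      rw [hψ _ _ h4]
      exact hn

end Pool.Agent.Lib.H14I.EngelOrder
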