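import Pool.Agent.Lib.H76.Ext.FreeOrder

/-!
# Every free group is orderable (Magnus), any rank, any universe

The generators are sent to `1 + N_i X` where the `N_i` are square zero endomorphisms of the
vector space with basis the finite words; the leading coefficient of `φ g - 1` is compared
with `0` in a total order of the additive group of the endomorphism ring.
-/

set_option autoImplicit false

open Polynomial

universe u v

namespace Pool.Agent.Lib.H14I.EngelOrder

/-- The positive cone of a total order which makes `F` an o-group. -/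
structure Cone {F : Type u} [Group F] (P : Set F) : Prop where
  mul : ∀ x y, x ∈ P → y ∈ P → x * y ∈ P
  one : (1 : F) ∉ P
  tot : ∀ x, x ≠ 1 → (x ∈ P ∨ x⁻¹ ∈ P)
  conj : ∀ g x, x ∈ P → g * x * g⁻¹ ∈ P

section magnus

variable {R : Type v} [Ring R]

/-- The first `i` coefficients vanish. -/
def Van (i : ℕ) (p : R[X]) : Prop := ∀ j < i, p.coeff j = 0

lemma Van.mul {i k : ℕ} {p q : R[X]} (hp : Van i p) (hq : Van k q) : Van (i + k) (p * q) := by
  intro j hj
  rw [coeff_mul]
  refine Finset.sum_eq_zero fun x hx => ?_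
  have hx' : x.1 + x.2 = j := by simpa using hx
  by_cases h : x.1 < i
  · rw [hp _ h, zero_mul]
  · rw [hq _ (by omega), mul_zero]

lemma Van.mono {i k : ℕ} {p : R[X]} (hp : Van i p) (h : k ≤ i) : Van k p :=
  fun j hj => hp j (by omega)

lemma Van.add {i : ℕ} {p q : R[X]} (hp : Van i p) (hq : Van i q) : Van i (p + q) := by
  intro j hj
  rw [coeff_add, hp j hj, hq j hj, add_zero]

lemma Van.neg {i : ℕ} {p : R[X]} (hp : Van i p) : Van i (-p) := by
  intro j hj
  rw [coeff_neg, hp j hj, neg_zero]

variable {F : Type u} [Group F] (φ : F →* (R[X])ˣ) (pos : R → Prop)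

/-- The Magnus cone. -/
def magnusCone : Set F :=
  {g | ∃ i : ℕ, Van i ((φ g : R[X]) - 1) ∧ pos (((φ g : R[X]) - 1).coeff i)}

lemma magnus_lead {g h : F} {i : ℕ}
    (e : Van (i + 1) (((φ g : R[X]) - 1) - ((φ h : R[X]) - 1)))
    (hh : Van i ((φ h : R[X]) - 1)) :
    Van i ((φ g : R[X]) - 1) ∧
      ((φ g : R[X]) - 1).coeff i = ((φ h : R[X]) - 1).coeff i := by
  have e1 : ((φ g : R[X]) - 1) = (((φ g : R[X]) - 1) - ((φ h : R[X]) - 1)) +
      ((φ h : R[X]) - 1) := by abel
  constructor
  · rw [e1]
    exact (e.mono (by omega)).add hh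
  · rw [e1, coeff_add, e i (by omega), zero_add]

theorem magnusCone_cone (hφ : Function.Injective φ)
    (hφ0 : ∀ g, Van 1 ((φ g : R[X]) - 1))
    (hadd : ∀ {S T : R}, pos S → pos T → pos (S + T)) (hzero : ¬ pos 0)
    (hor : ∀ {T : R}, T ≠ 0 → pos T ∨ pos (-T)) :
    Cone (magnusCone φ pos) := by
  refine ⟨?_, ?_, ?_, ?_⟩
  · rintro x y ⟨i, hi, hi'⟩ ⟨k, hk, hk'⟩
    have e : ((φ (x * y) : (R[X])ˣ) : R[X]) - 1 =
        ((φ x : R[X]) - 1) * ((φ y : R[X]) - 1) + ((φ x : R[X]) - 1) +
          ((φ y : R[X]) - 1) := by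
      rw [map_mul, Units.val_mul, sub_mul, mul_sub, mul_one, one_mul]; abel
    have hi1 : 1 ≤ i := by
      by_contra hcon
      obtain rfl : i = 0 := by omega
      rw [hφ0 x 0 (by omega)] at hi'
      exact hzero hi'
    have hk1 : 1 ≤ k := by
      by_contra hcon
      obtain rfl : k = 0 := by omega
      rw [hφ0 y 0 (by omega)] at hk'
      exact hzero hk'
    have hpq := hi.mul hk
    rcases lt_trichotomy i k with h | h | h
    · refine ⟨i, ?_, ?_⟩
      · rw [e]
        exact ((hpq.mono (by omega)).add hi).add (hk.mono (by omega))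
      · rw [e, coeff_add, coeff_add, hpq i (by omega), hk i (by omega), zero_add, add_zero]
        exact hi'
    · subst h
      refine ⟨i, ?_, ?_⟩
      · rw [e]
        exact ((hpq.mono (by omega)).add hi).add hk
      · rw [e, coeff_add, coeff_add, hpq i (by omega), zero_add]
        exact hadd hi' hk'
    · refine ⟨k, ?_, ?_⟩
      · rw [e]
        exact ((hpq.mono (by omega)).add (hi.mono (by omega))).add hk
      · rw [e, coeff_add, coeff_add, hpq k (by omega), hi k (by omega), zero_add, zero_add]
        exact hk'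
  · rintro ⟨i, -, hi'⟩
    rw [map_one, Units.val_one, sub_self, coeff_zero] at hi'
    exact hzero hi'
  · intro x hx
    have hne : ((φ x : R[X]) - 1) ≠ 0 := by
      intro h
      apply hx
      apply hφ
      rw [map_one]
      apply Units.ext
      rw [Units.val_one]
      exact sub_eq_zero.1 h
    have hex : ∃ i, ((φ x : R[X]) - 1).coeff i ≠ 0 := by
      by_contra hcon
      push Not at hcon
      exact hne (Polynomial.ext (by simpa using hcon))
    classical
    set i := Nat.find hex with hi
    have hi1 : Van i ((φ x : R[X]) - 1) := by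
      intro j hj
      have := Nat.find_min hex hj
      push Not at this
      exact this
    rcases hor (Nat.find_spec hex) with h | h
    · left; exact ⟨i, hi1, h⟩
    · right
      have e : ((φ x⁻¹ : (R[X])ˣ) : R[X]) - 1 =
          -(((φ x⁻¹ : (R[X])ˣ) : R[X]) - 1) * ((φ x : R[X]) - 1) +
            -((φ x : R[X]) - 1) := by
        have h1 : ((φ x⁻¹ : (R[X])ˣ) : R[X]) * (φ x : R[X]) = 1 := by
          rw [← Units.val_mul, ← map_mul, inv_mul_cancel, map_one, Units.val_one]
        rw [neg_mul, sub_mul, mul_sub, h1, mul_one, one_mul]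
        abel
      have h2 : Van (1 + i) (-(((φ x⁻¹ : (R[X])ˣ) : R[X]) - 1) * ((φ x : R[X]) - 1)) :=
        (hφ0 x⁻¹).neg.mul hi1
      refine ⟨i, ?_, ?_⟩
      · rw [e]
        exact (h2.mono (by omega)).add hi1.neg
      · rw [e, coeff_add, h2 i (by omega), zero_add, coeff_neg]
        exact h
  · rintro g x ⟨i, hi, hi'⟩
    have e : (((φ (g * x * g⁻¹) : (R[X])ˣ) : R[X]) - 1) - ((φ x : R[X]) - 1) =
        ((φ g : R[X]) - 1) * ((φ x : R[X]) - 1) * (φ g⁻¹ : R[X]) +
          ((φ x : R[X]) - 1) * ((φ g⁻¹ : R[X]) - 1) := by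
      have h1 : (φ g : R[X]) * (φ g⁻¹ : R[X]) = 1 := by
        rw [← Units.val_mul, ← map_mul, mul_inv_cancel, map_one, Units.val_one]
      rw [map_mul, map_mul, Units.val_mul, Units.val_mul]
      have h2 : ((φ g : R[X]) - 1) * ((φ x : R[X]) - 1) * (φ g⁻¹ : R[X]) +
          ((φ x : R[X]) - 1) * ((φ g⁻¹ : R[X]) - 1) =
          (φ g : R[X]) * (φ x : R[X]) * (φ g⁻¹ : R[X]) -
            (φ g : R[X]) * (φ g⁻¹ : R[X]) - ((φ x : R[X]) - 1) := by
        simp only [sub_mul, mul_sub, mul_one, one_mul]
        abel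
      rw [h2, h1]
    have hv : Van (i + 1) ((((φ (g * x * g⁻¹) : (R[X])ˣ) : R[X]) - 1) -
        ((φ x : R[X]) - 1)) := by
      rw [e]
      have h1 : Van (1 + i + 0) (((φ g : R[X]) - 1) * ((φ x : R[X]) - 1) *
          (φ g⁻¹ : R[X])) :=
        ((hφ0 g).mul hi).mul (fun j hj => absurd hj (by omega))
      have h2 : Van (i + 1) (((φ x : R[X]) - 1) * ((φ g⁻¹ : R[X]) - 1)) :=
        hi.mul (hφ0 g⁻¹)
      exact (h1.mono (by omega)).add h2
    obtain ⟨h1, h2⟩ := magnus_lead φ hv hi
    exact ⟨i, h1, by rw [h2]; exact hi'⟩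

end magnus

/-! ### A total order on the additive group of a rational vector space -/

theorem exists_pos (V : Type v) [AddCommGroup V] [Module ℚ V] :
    ∃ pos : V → Prop, (∀ S T : V, pos S → pos T → pos (S + T)) ∧ ¬ pos 0 ∧
      ∀ T : V, T ≠ 0 → pos T ∨ pos (-T) := by
  classical
  let b := Module.Basis.ofVectorSpace ℚ V
  let _ : LinearOrder (Module.Basis.ofVectorSpaceIndex ℚ V) := linearOrderOfSTO WellOrderingRel
  refine ⟨fun T => 0 < toLex (b.repr T), ?_, ?_, ?_⟩
  · intro S T hS hT
    rw [map_add, toLex_add]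
    exact add_pos hS hT
  · intro h
    rw [map_zero, toLex_zero] at h
    exact lt_irrefl _ h
  · intro T hT
    have h1 : toLex (b.repr T) ≠ 0 := by
      intro h
      apply hT
      have h2 : b.repr T = 0 := toLex.injective h
      exact (map_eq_zero_iff _ b.repr.injective).1 h2
    rcases lt_or_gt_of_ne h1 with h | h
    · right
      change 0 < toLex (b.repr (-T))
      rw [map_neg, toLex_neg]
      exact neg_pos.2 h
    · left
      exact h

/-! ### The Magnus representation -/

section rep

variable (α : Type u)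

/-- The vector space with basis the finite words. -/
abbrev WV : Type u := List α →₀ ℚ

variable {α}

open Classical in
/-- `N_i` puts the letter `i` in front of the words which do not begin with `i` and kills the
others. -/
noncomputable def Nop (i : α) : Module.End ℚ (WV α) :=
  Finsupp.linearCombination ℚ
    (fun l : List α => if l.head? = some i then (0 : WV α) else Finsupp.single (i :: l) 1)

theorem Nop_single (i : α) (l : List α) (h : l.head? ≠ some i) (q : ℚ) :
    Nop i (Finsupp.single l q) = Finsupp.single (i :: l) q := by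
  unfold Nop
  rw [Finsupp.linearCombination_single, if_neg h, Finsupp.smul_single, smul_eq_mul, mul_one]

theorem Nop_single' (i : α) (l : List α) (h : l.head? = some i) (q : ℚ) :
    Nop i (Finsupp.single l q) = 0 := by
  unfold Nop
  rw [Finsupp.linearCombination_single, if_pos h, smul_zero]

theorem Nop_sq (i : α) : Nop i * Nop i = 0 := by
  refine Finsupp.lhom_ext fun l q => ?_
  rw [Module.End.mul_apply, LinearMap.zero_apply]
  by_cases h : l.head? = some i
  · rw [Nop_single' i l h, map_zero]
  · rw [Nop_single i l h]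
    exact Nop_single' i _ rfl q

/-- The unit `1 + N_i X`. -/
noncomputable def genU (i : α) : ((Module.End ℚ (WV α))[X])ˣ :=
  Pool.Agent.H76.Ext.oneAdd (C (Nop i) * X) (Pool.Agent.H76.Ext.CX_sq (Nop i) (Nop_sq i))

theorem genU_zpow (i : α) (n : ℤ) :
    ((genU i ^ n : ((Module.End ℚ (WV α))[X])ˣ) : (Module.End ℚ (WV α))[X]) =
      1 + C (((n : ℤ) : Module.End ℚ (WV α)) * Nop i) * X := by
  unfold genU
  rw [Pool.Agent.H76.Ext.oneAdd_zpow, C_mul, mul_assoc, map_intCast]

/-- The Magnus representation of the coproduct of infinite cyclic groups. -/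
noncomputable def PsiM : Monoid.CoprodI (fun _ : α => Multiplicative ℤ) →*
    ((Module.End ℚ (WV α))[X])ˣ :=
  Monoid.CoprodI.lift fun i => zpowersHom _ (genU i)

theorem PsiM_of (i : α) (n : Multiplicative ℤ) :
    ((PsiM (Monoid.CoprodI.of (i := i) n) : ((Module.End ℚ (WV α))[X])ˣ) :
      (Module.End ℚ (WV α))[X]) =
        1 + C (((Multiplicative.toAdd n : ℤ) : Module.End ℚ (WV α)) * Nop i) * X := by
  unfold PsiM
  rw [Monoid.CoprodI.lift_of, zpowersHom_apply, genU_zpow]

/-- The top coefficient of the image of a nonempty reduced word. -/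
theorem PsiM_word {i j : α} (w : Monoid.CoprodI.NeWord (fun _ : α => Multiplicative ℤ) i j) :
    ∃ (n : ℕ) (m : List α) (q : ℚ), 1 ≤ n ∧ q ≠ 0 ∧ m.head? = some i ∧
      ((PsiM w.prod : ((Module.End ℚ (WV α))[X])ˣ) : (Module.End ℚ (WV α))[X]).natDegree ≤ n ∧
      ∀ (l : List α) (r : ℚ), l.head? ≠ some j →
        (((PsiM w.prod : ((Module.End ℚ (WV α))[X])ˣ) : (Module.End ℚ (WV α))[X]).coeff n)
          (Finsupp.single l r) = Finsupp.single (m ++ l) (q * r) := by
  induction w with
  | singleton x hx =>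
    rename_i i
    refine ⟨1, [i], ((Multiplicative.toAdd x : ℤ) : ℚ), le_refl 1, ?_, rfl, ?_, ?_⟩
    · intro h
      apply hx
      have h1 : (Multiplicative.toAdd x : ℤ) = 0 := by exact_mod_cast h
      exact Multiplicative.toAdd.injective h1
    · rw [Monoid.CoprodI.NeWord.prod_singleton, PsiM_of]
      refine (natDegree_add_le _ _).trans ?_
      rw [natDegree_one, max_eq_right (Nat.zero_le _)]
      have h := natDegree_C_mul_X_pow_le
        (((Multiplicative.toAdd x : ℤ) : Module.End ℚ (WV α)) * Nop i) 1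
      rw [pow_one] at h
      exact h
    · intro l r hl
      rw [Monoid.CoprodI.NeWord.prod_singleton, PsiM_of, coeff_add, coeff_C_mul, coeff_X_one,
        mul_one, coeff_one, if_neg one_ne_zero, zero_add, Module.End.mul_apply,
        Nop_single i l hl]
      have h7 : (((Multiplicative.toAdd x : ℤ) : Module.End ℚ (WV α)))
          (Finsupp.single (i :: l) r) =
          ((Multiplicative.toAdd x : ℤ)) • (Finsupp.single (i :: l) r : WV α) := by
        rw [Module.End.intCast_apply]
      rw [h7, ← Int.cast_smul_eq_zsmul ℚ, Finsupp.smul_single, smul_eq_mul]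
      rfl
  | append w₁ hne w₂ ih₁ ih₂ =>
    obtain ⟨n₁, m₁, q₁, h1, h2, h3, h4, h5⟩ := ih₁
    obtain ⟨n₂, m₂, q₂, h1', h2', h3', h4', h5'⟩ := ih₂
    have hm1 : m₁ ≠ [] := by
      rintro rfl
      simp at h3
    have hm2 : m₂ ≠ [] := by
      rintro rfl
      simp at h3'
    refine ⟨n₁ + n₂, m₁ ++ m₂, q₁ * q₂, by omega, mul_ne_zero h2 h2', ?_, ?_, ?_⟩
    · rw [List.head?_append_of_ne_nil _ hm1, h3]
    · rw [Monoid.CoprodI.NeWord.append_prod, map_mul, Units.val_mul]
      exact natDegree_mul_le.trans (Nat.add_le_add h4 h4')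
    · intro l r hl
      rw [Monoid.CoprodI.NeWord.append_prod, map_mul, Units.val_mul,
        coeff_mul_add_eq_of_natDegree_le h4 h4', Module.End.mul_apply, h5' l r hl, h5, List.append_assoc,
        mul_assoc]
      rw [List.head?_append_of_ne_nil _ hm2, h3']
      intro h
      exact hne (Option.some_injective _ h).symm

theorem PsiM_injective : Function.Injective (PsiM (α := α)) := by
  classical
  rw [injective_iff_map_eq_one]
  rw [(Monoid.CoprodI.Word.equiv).forall_congr_left]
  intro w hw
  change PsiM w.prod = 1 at hw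
  change w.prod = 1
  by_contra hne
  have hw' : w ≠ Monoid.CoprodI.Word.empty := by
    rintro rfl
    exact hne Monoid.CoprodI.Word.prod_empty
  obtain ⟨i, j, w', rfl⟩ := Monoid.CoprodI.NeWord.of_word w hw'
  obtain ⟨n, m, q, h1, h2, -, -, h5⟩ := PsiM_word w'
  have h6 : PsiM w'.prod = 1 := hw
  have h7 := h5 [] 1 (by simp)
  rw [h6, Units.val_one, coeff_one, if_neg (by omega : ¬ (n = 0)) ] at h7
  have h8 := congrArg (fun f => f (m ++ [])) h7
  simp at h8
  exact h2 h8.symm

/-- The Magnus representation of the free group. -/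
noncomputable def phiM : FreeGroup α →* ((Module.End ℚ (WV α))[X])ˣ :=
  FreeGroup.lift genU

theorem phiM_injective : Function.Injective (phiM (α := α)) := by
  have h1 : phiM (α := α) = PsiM.comp (FreeGroup.lift fun i : α =>
      (Monoid.CoprodI.of (i := i) (Multiplicative.ofAdd (1 : ℤ)) :
        Monoid.CoprodI (fun _ : α => Multiplicative ℤ))) := by
    apply FreeGroup.ext_hom
    intro i
    unfold phiM PsiM
    rw [FreeGroup.lift_apply_of, MonoidHom.comp_apply, FreeGroup.lift_apply_of,
      Monoid.CoprodI.lift_of, zpowersHom_apply, toAdd_ofAdd, zpow_one]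
  rw [h1, MonoidHom.coe_comp]
  refine PsiM_injective.comp ?_
  have h2 : (Monoid.CoprodI.lift fun i : α => zpowersHom (FreeGroup α) (FreeGroup.of i)).comp
      (FreeGroup.lift fun i : α =>
        (Monoid.CoprodI.of (i := i) (Multiplicative.ofAdd (1 : ℤ)) :
          Monoid.CoprodI (fun _ : α => Multiplicative ℤ))) = MonoidHom.id (FreeGroup α) := by
    apply FreeGroup.ext_hom
    intro i
    rw [MonoidHom.comp_apply, FreeGroup.lift_apply_of, Monoid.CoprodI.lift_of, zpowersHom_apply,
      toAdd_ofAdd, zpow_one, MonoidHom.id_apply]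
  exact Function.LeftInverse.injective (g := Monoid.CoprodI.lift fun i : α =>
    zpowersHom (FreeGroup α) (FreeGroup.of i)) fun x => DFunLike.congr_fun h2 x

theorem phiM_van (g : FreeGroup α) :
    Van 1 ((phiM g : (Module.End ℚ (WV α))[X]) - 1) := by
  have key : ∀ g : FreeGroup α, ((phiM g : (Module.End ℚ (WV α))[X])).coeff 0 = 1 := by
    intro g
    have h : (Units.map ((constantCoeff : (Module.End ℚ (WV α))[X] →+* Module.End ℚ (WV α)) :
        (Module.End ℚ (WV α))[X] →* Module.End ℚ (WV α))).comp phiM = 1 := by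
      apply FreeGroup.ext_hom
      intro i
      apply Units.ext
      simp only [phiM, MonoidHom.comp_apply, FreeGroup.lift_apply_of]
      change constantCoeff (1 + C (Nop i) * X) = 1
      simp
    have h2 := congrArg
      (fun f : FreeGroup α →* (Module.End ℚ (WV α))ˣ => ((f g : _) : Module.End ℚ (WV α))) h
    simpa using h2
  intro j hj
  obtain rfl : j = 0 := by omega
  rw [coeff_sub, key g, coeff_one_zero]
  exact sub_self _

end rep

/-- Every free group is orderable. -/
theorem exists_cone_free (α : Type u) : ∃ P : Set (FreeGroup α), Cone P := by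
  obtain ⟨pos, h1, h2, h3⟩ := exists_pos (Module.End ℚ (WV α))
  exact ⟨magnusCone phiM pos, magnusCone_cone phiM pos phiM_injective phiM_van
    (fun {S T} hS hT => h1 S T hS hT) h2 (fun {T} hT => h3 T hT)⟩

end Pool.Agent.Lib.H14I.EngelOrder
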