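import Pool.Agent.Lib.H14I.EngelOrderDefs
import Pool.Agent.Lib.H14I.FreeCone

/-!
# Non-extendable invariant orders from an invariant homomorphism

`F` is a group, `H` a normal subgroup such that every element of `F` has a power in `H`,
`ψ : H → ℤ` an `F`-invariant homomorphism which does not vanish on `H ∩ [F, F]`.  The
lexicographic order of `H` (first `ψ`, then the restriction of an order of `F`) is
`F`-invariant, and no total order of `F` invariant on one side extends it.
-/

set_option autoImplicit false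

universe u v

namespace Pool.Agent.Lib.H14I.EngelOrder

/-! ### Two-sided orders: powers of products -/

section powers

variable {G : Type u} [Group G] {le : G → G → Prop} (hO : IsOGroupOrder le)
include hO

theorem le_comm_pow {x y : G} (h : le (y * x) (x * y)) (n : ℕ) :
    le (y * x ^ n) (x ^ n * y) ∧ le (y ^ n * x) (x * y ^ n) := by
  induction n with
  | zero =>
    rw [pow_zero, pow_zero, mul_one, one_mul, mul_one, one_mul]
    exact ⟨hO.order.refl _, hO.order.refl _⟩
  | succ n ih =>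
    constructor
    · have h1 := hO.right _ _ x ih.1
      have h2 := hO.left _ _ (x ^ n) h
      have e1 : y * x ^ n * x = y * x ^ (n + 1) := by rw [pow_succ]; group
      have e2 : x ^ n * (y * x) = x ^ n * y * x := by group
      have e3 : x ^ n * (x * y) = x ^ (n + 1) * y := by rw [pow_succ]; group
      rw [e1] at h1
      rw [e2, e3] at h2
      exact hO.order.trans _ _ _ h1 h2
    · have h1 := hO.left _ _ y ih.2
      have h2 := hO.right _ _ (y ^ n) h
      have e1 : y * (y ^ n * x) = y ^ (n + 1) * x := by rw [pow_succ']; group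
      have e2 : y * (x * y ^ n) = y * x * y ^ n := by group
      have e3 : x * y * y ^ n = x * y ^ (n + 1) := by rw [pow_succ']; group
      rw [e1, e2] at h1
      rw [e3] at h2
      exact hO.order.trans _ _ _ h1 h2

theorem le_mul_pow {x y : G} (h : le (y * x) (x * y)) (n : ℕ) :
    le ((x * y) ^ n) (x ^ n * y ^ n) ∧ le (y ^ n * x ^ n) ((x * y) ^ n) := by
  induction n with
  | zero =>
    rw [pow_zero, pow_zero, pow_zero, mul_one]
    exact ⟨hO.order.refl _, hO.order.refl _⟩
  | succ n ih =>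
    constructor
    · have h1 := hO.right _ _ (x * y) ih.1
      have h2 := hO.right _ _ y (hO.left _ _ (x ^ n) (le_comm_pow hO h n).2)
      have e1 : (x * y) ^ n * (x * y) = (x * y) ^ (n + 1) := by rw [pow_succ]
      have e2 : x ^ n * (y ^ n * x) * y = x ^ n * y ^ n * (x * y) := by group
      have e3 : x ^ n * (x * y ^ n) * y = x ^ (n + 1) * y ^ (n + 1) := by
        rw [pow_succ x, pow_succ y]; group
      rw [e1] at h1
      rw [e2, e3] at h2
      exact hO.order.trans _ _ _ h1 h2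
    · have h1 := hO.left _ _ (x * y) ih.2
      have h2 := hO.right _ _ (x ^ n) (le_comm_pow hO h (n + 1)).2
      have e1 : x * y * (y ^ n * x ^ n) = x * y ^ (n + 1) * x ^ n := by
        rw [pow_succ' y]; group
      have e2 : x * y * (x * y) ^ n = (x * y) ^ (n + 1) := by rw [pow_succ']
      have e3 : y ^ (n + 1) * x * x ^ n = y ^ (n + 1) * x ^ (n + 1) := by
        rw [pow_succ' x]; group
      rw [e1, e2] at h1
      rw [e3] at h2
      exact hO.order.trans _ _ _ h2 h1

end powers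

/-! ### The order of `H` -/

section order

variable {F : Type u} [Group F] {H : Subgroup F} {P : Set F} {ψ : F → ℤ}

/-- The lexicographic cone. -/
def lexPos (P : Set F) (ψ : F → ℤ) (h : F) : Prop := 0 < ψ h ∨ (ψ h = 0 ∧ h ∈ P)

/-- The order relation on `H`. -/
def lexLe (H : Subgroup F) (P : Set F) (ψ : F → ℤ) (a b : H) : Prop :=
  a = b ∨ lexPos P ψ ((a : F)⁻¹ * (b : F))

variable (hP : Cone P) (hmul : ∀ x ∈ H, ∀ y ∈ H, ψ (x * y) = ψ x + ψ y)
include hmul

theorem psi_one : ψ 1 = 0 := by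
  have h := hmul 1 H.one_mem 1 H.one_mem
  rw [mul_one] at h
  omega

theorem psi_inv {x : F} (hx : x ∈ H) : ψ x⁻¹ = -ψ x := by
  have h := hmul x hx x⁻¹ (H.inv_mem hx)
  rw [mul_inv_cancel, psi_one hmul] at h
  omega

theorem psi_pow {x : F} (hx : x ∈ H) (n : ℕ) : ψ (x ^ n) = n * ψ x := by
  induction n with
  | zero => rw [pow_zero, psi_one hmul]; simp
  | succ n ih =>
    rw [pow_succ, hmul _ (H.pow_mem hx n) _ hx, ih]
    push_cast
    ring

include hP

theorem lexPos_mul {x y : F} (hx : x ∈ H) (hy : y ∈ H) (h1 : lexPos P ψ x)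
    (h2 : lexPos P ψ y) : lexPos P ψ (x * y) := by
  unfold lexPos at *
  rw [hmul x hx y hy]
  rcases h1 with h1 | ⟨h1, h1'⟩ <;> rcases h2 with h2 | ⟨h2, h2'⟩
  · left; omega
  · left; omega
  · left; omega
  · right; exact ⟨by omega, hP.mul _ _ h1' h2'⟩

theorem lexPos_one : ¬ lexPos P ψ (1 : F) := by
  rintro (h | ⟨-, h⟩)
  · rw [psi_one hmul] at h
    omega
  · exact hP.one h

theorem lexPos_tot {x : F} (hx : x ∈ H) (h1 : x ≠ 1) : lexPos P ψ x ∨ lexPos P ψ x⁻¹ := by
  unfold lexPos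
  rw [psi_inv hmul hx]
  rcases lt_trichotomy 0 (ψ x) with h | h | h
  · left; left; exact h
  · rcases hP.tot x h1 with h' | h'
    · left; right; exact ⟨h.symm, h'⟩
    · right; right; exact ⟨by omega, h'⟩
  · right; left; omega

theorem lexPos_conj (hinv : ∀ g, ∀ x ∈ H, ψ (g * x * g⁻¹) = ψ x) {x : F} (hx : x ∈ H) (g : F)
    (h1 : lexPos P ψ x) : lexPos P ψ (g * x * g⁻¹) := by
  unfold lexPos at *
  rw [hinv g x hx]
  rcases h1 with h1 | ⟨h1, h1'⟩
  · left; exact h1
  · right; exact ⟨h1, hP.conj _ _ h1'⟩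

theorem lexLe_ogroup (hinv : ∀ g, ∀ x ∈ H, ψ (g * x * g⁻¹) = ψ x) :
    IsOGroupOrder (lexLe H P ψ) := by
  refine ⟨⟨?_, ?_, ?_, ?_⟩, ?_, ?_⟩
  · intro a
    left; rfl
  · rintro a b c (rfl | h1) h2
    · exact h2
    rcases h2 with rfl | h2
    · right; exact h1
    right
    have h3 := lexPos_mul hP hmul (H.mul_mem (H.inv_mem a.2) b.2) (H.mul_mem (H.inv_mem b.2) c.2)
      h1 h2
    have e : ((a : F)⁻¹ * b) * ((b : F)⁻¹ * c) = (a : F)⁻¹ * c := by group
    rwa [e] at h3
  · rintro a b (rfl | h1) h2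
    · rfl
    rcases h2 with rfl | h2
    · rfl
    exfalso
    have h3 := lexPos_mul hP hmul (H.mul_mem (H.inv_mem a.2) b.2) (H.mul_mem (H.inv_mem b.2) a.2)
      h1 h2
    have e : ((a : F)⁻¹ * b) * ((b : F)⁻¹ * a) = 1 := by group
    rw [e] at h3
    exact lexPos_one hP hmul h3
  · intro a b
    by_cases h : a = b
    · left; left; exact h
    · have h1 : (a : F)⁻¹ * b ≠ 1 := by
        intro h2
        exact h (Subtype.ext (inv_mul_eq_one.1 h2))
      rcases lexPos_tot hP hmul (H.mul_mem (H.inv_mem a.2) b.2) h1 with h2 | h2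
      · left; right; exact h2
      · right; right
        have e : ((a : F)⁻¹ * b)⁻¹ = (b : F)⁻¹ * a := by group
        rwa [e] at h2
  · rintro a b c (rfl | h)
    · left; rfl
    · right
      rw [Subgroup.coe_mul, Subgroup.coe_mul]
      have e : ((c : F) * a)⁻¹ * (c * b) = (a : F)⁻¹ * b := by group
      rwa [e]
  · rintro a b c (rfl | h)
    · left; rfl
    · right
      rw [Subgroup.coe_mul, Subgroup.coe_mul]
      have e : ((a : F) * c)⁻¹ * (b * c) = (c : F)⁻¹ * ((a : F)⁻¹ * b) * ((c : F)⁻¹)⁻¹ := by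
        group
      rw [e]
      exact lexPos_conj hP hmul hinv (H.mul_mem (H.inv_mem a.2) b.2) _ h

theorem lexLe_conj (hinv : ∀ g, ∀ x ∈ H, ψ (g * x * g⁻¹) = ψ x) :
    ConjInvariant H (lexLe H P ψ) := by
  rintro f a b a' b' ha hb (rfl | h)
  · left
    exact Subtype.ext (ha.trans hb.symm)
  · right
    rw [ha, hb]
    have e : (f⁻¹ * (a : F) * f)⁻¹ * (f⁻¹ * b * f) = f⁻¹ * ((a : F)⁻¹ * b) * f⁻¹⁻¹ := by group
    rw [e]
    exact lexPos_conj hP hmul hinv (H.mul_mem (H.inv_mem a.2) b.2) _ h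

end order

/-! ### No extension -/

section noext

variable {F : Type u} [Group F] {H : Subgroup F} {P : Set F} {ψ : F → ℤ}

/-- A left invariant total order which extends the order of `H` is two-sided. -/
theorem ogroup_of_left (hnorm : H.Normal) (hper : ∀ g : F, ∃ n : ℕ, 1 ≤ n ∧ g ^ n ∈ H)
    {le : H → H → Prop} (hc : ConjInvariant H le) {le' : F → F → Prop} (ho : IsTotalOrder le')
    (hl : LeftInvariant le') (hext : Extends H le' le) : IsOGroupOrder le' := by
  -- powers
  have hpow : ∀ (x : F) (n : ℕ), le' 1 x → le' 1 (x ^ n) := by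
    intro x n hx
    induction n with
    | zero => rw [pow_zero]; exact ho.refl 1
    | succ n ih =>
      rw [pow_succ]
      have h1 := hl _ _ (x ^ n) hx
      rw [mul_one] at h1
      exact ho.trans _ _ _ ih h1
  have hinv1 : ∀ x : F, le' 1 x → le' x⁻¹ 1 := by
    intro x hx
    have h1 := hl _ _ x⁻¹ hx
    rw [mul_one, inv_mul_cancel] at h1
    exact h1
  have hinv2 : ∀ x : F, le' x 1 → le' 1 x⁻¹ := by
    intro x hx
    have h1 := hl _ _ x⁻¹ hx
    rw [mul_one, inv_mul_cancel] at h1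
    exact h1
  -- torsion-free
  have htf : ∀ (x : F) (n : ℕ), 1 ≤ n → le' 1 x → x ^ n = 1 → x = 1 := by
    intro x n hn hx h1
    obtain ⟨m, rfl⟩ := Nat.exists_eq_add_of_le' hn
    have h2 := hpow x m hx
    rw [pow_succ] at h1
    have h3 : x ^ m = x⁻¹ := eq_inv_of_mul_eq_one_left h1
    rw [h3] at h2
    exact (ho.antisymm _ _ (by
      have h4 := hl _ _ x h2
      rw [mul_one, mul_inv_cancel] at h4
      exact h4) hx)
  -- conjugation
  have hconj : ∀ g x : F, le' 1 x → le' 1 (g⁻¹ * x * g) := by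
    intro g x hx
    rcases ho.total 1 (g⁻¹ * x * g) with h | h
    · exact h
    obtain ⟨n, hn, hnH⟩ := hper x
    have h1 : le' ((1 : H) : F) ((⟨x ^ n, hnH⟩ : H) : F) := hpow x n hx
    have h2 := (hext _ _).1 h1
    have h3 : g⁻¹ * x ^ n * g ∈ H := by
      have h4 := hnorm.conj_mem _ hnH g⁻¹
      rwa [inv_inv] at h4
    have h5 := hc g 1 ⟨x ^ n, hnH⟩ 1 ⟨g⁻¹ * x ^ n * g, h3⟩ (by simp) rfl h2
    have h6 : le' 1 (g⁻¹ * x ^ n * g) := (hext _ _).2 h5
    have h7 := hpow _ n (hinv2 _ h)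
    have h8 : (g⁻¹ * x * g)⁻¹ ^ n = (g⁻¹ * x ^ n * g)⁻¹ := by
      have h9 : (g⁻¹ * x * g) ^ n = g⁻¹ * x ^ n * g := by
        have h10 := conj_pow (i := n) (a := g⁻¹) (b := x)
        rw [inv_inv] at h10
        exact h10
      rw [inv_pow, h9]
    rw [h8] at h7
    have h9 := hinv1 _ h7
    rw [inv_inv] at h9
    have h10 : g⁻¹ * x ^ n * g = 1 := ho.antisymm _ _ h9 h6
    have h11 : x ^ n = 1 := by
      have h12 : x ^ n = g * (g⁻¹ * x ^ n * g) * g⁻¹ := by group
      rw [h12, h10]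
      group
    rw [htf x n hn hx h11, mul_one, inv_mul_cancel]
    exact ho.refl 1
  refine ⟨ho, hl, fun a b c hab => ?_⟩
  have h1 := hl _ _ a⁻¹ hab
  rw [inv_mul_cancel] at h1
  have h2 := hl _ _ (a * c) (hconj c _ h1)
  have e : a * c * (c⁻¹ * (a⁻¹ * b) * c) = b * c := by group
  rwa [mul_one, e] at h2

/-- An extension in the sense of right invariant orders gives a left invariant one. -/
theorem left_of_right {le : H → H → Prop} (hle : IsOGroupOrder le) {le' : F → F → Prop}
    (ho : IsTotalOrder le') (hr : RightInvariant le') (hext : Extends H le' le) :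
    IsTotalOrder (fun a b : F => le' b⁻¹ a⁻¹) ∧ LeftInvariant (fun a b : F => le' b⁻¹ a⁻¹) ∧
      Extends H (fun a b : F => le' b⁻¹ a⁻¹) le := by
  refine ⟨⟨fun a => ho.refl _, fun a b c h1 h2 => ho.trans _ _ _ h2 h1,
    fun a b h1 h2 => inv_injective (ho.antisymm _ _ h2 h1), fun a b => ho.total _ _⟩, ?_, ?_⟩
  · intro a b c h
    rw [mul_inv_rev, mul_inv_rev]
    exact hr _ _ _ h
  · intro a b
    have h1 := hext b⁻¹ a⁻¹
    rw [Subgroup.coe_inv, Subgroup.coe_inv] at h1
    refine h1.trans ?_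
    have key : ∀ a b : H, le a b → le b⁻¹ a⁻¹ := by
      intro a b hab
      have h2 := hle.right _ _ b⁻¹ (hle.left _ _ a⁻¹ hab)
      have e1 : a⁻¹ * a * b⁻¹ = b⁻¹ := by group
      have e2 : a⁻¹ * b * b⁻¹ = a⁻¹ := by group
      rwa [e1, e2] at h2
    constructor
    · intro h
      have h2 := key _ _ h
      rwa [inv_inv, inv_inv] at h2
    · exact key a b

/-- The lexicographic order does not extend. -/
theorem no_ext (hnorm : H.Normal) (hper : ∀ g : F, ∃ n : ℕ, 1 ≤ n ∧ g ^ n ∈ H)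
    (hP : Cone P) (hmul : ∀ x ∈ H, ∀ y ∈ H, ψ (x * y) = ψ x + ψ y)
    (hinv : ∀ g, ∀ x ∈ H, ψ (g * x * g⁻¹) = ψ x) {c : F} (hc : c ∈ commutator F) (hcH : c ∈ H)
    (hne : ψ c ≠ 0) {le' : F → F → Prop} (hO : IsOGroupOrder le') :
    ¬ Extends H le' (lexLe H P ψ) := by
  intro hext
  -- `ψ` is monotone
  have hmono : ∀ u v : F, u ∈ H → v ∈ H → le' u v → ψ u ≤ ψ v := by
    intro u v hu hv huv
    have h1 : le' ((⟨u, hu⟩ : H) : F) ((⟨v, hv⟩ : H) : F) := huv
    rcases (hext _ _).1 h1 with h2 | h2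
    · have h3 : u = v := congrArg Subtype.val h2
      rw [h3]
    · have h3 : ψ (u⁻¹ * v) = ψ v - ψ u := by
        rw [hmul _ (H.inv_mem hu) _ hv, psi_inv hmul hu]
        ring
      rcases h2 with h2 | ⟨h2, -⟩
      · change 0 < ψ (u⁻¹ * v) at h2
        omega
      · change ψ (u⁻¹ * v) = 0 at h2
        omega
  choose ν hν1 hν2 using hper
  set lam : F → ℚ := fun g => (ψ (g ^ ν g) : ℚ) / (ν g : ℚ) with hlam
  have lam_eq : ∀ (g : F) (n : ℕ), 1 ≤ n → g ^ n ∈ H → lam g = (ψ (g ^ n) : ℚ) / (n : ℚ) := by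
    intro g n hn hg
    have h1 := psi_pow hmul (hν2 g) n
    have h2 := psi_pow hmul hg (ν g)
    have h3 : (g ^ ν g) ^ n = (g ^ n) ^ ν g := by rw [← pow_mul, ← pow_mul, mul_comm]
    rw [h3, h2] at h1
    have h4 : ((ν g : ℕ) : ℚ) ≠ 0 := by
      have := hν1 g
      have h5 : ν g ≠ 0 := by omega
      exact_mod_cast h5
    have h5 : (n : ℚ) ≠ 0 := by
      have h6 : n ≠ 0 := by omega
      exact_mod_cast h6
    have h6 : ((ν g : ℕ) : ℚ) * (ψ (g ^ n) : ℚ) = (n : ℚ) * (ψ (g ^ ν g) : ℚ) := by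
      exact_mod_cast h1
    rw [hlam]
    change (ψ (g ^ ν g) : ℚ) / (ν g : ℚ) = _
    rw [div_eq_div_iff h4 h5]
    linarith
  have key : ∀ x y : F, le' (y * x) (x * y) →
      lam (x * y) = lam x + lam y ∧ lam (y * x) = lam x + lam y := by
    intro x y hxy
    set n := ν x * ν y * ν (x * y) * ν (y * x) with hn
    have hn1 : 1 ≤ n :=
      Nat.mul_pos (Nat.mul_pos (Nat.mul_pos (hν1 x) (hν1 y)) (hν1 (x * y))) (hν1 (y * x))
    have hx : x ^ n ∈ H := by
      have : n = ν x * (ν y * ν (x * y) * ν (y * x)) := by rw [hn]; ring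
      rw [this, pow_mul]; exact H.pow_mem (hν2 x) _
    have hy : y ^ n ∈ H := by
      have : n = ν y * (ν x * ν (x * y) * ν (y * x)) := by rw [hn]; ring
      rw [this, pow_mul]; exact H.pow_mem (hν2 y) _
    have hxy' : (x * y) ^ n ∈ H := by
      have : n = ν (x * y) * (ν x * ν y * ν (y * x)) := by rw [hn]; ring
      rw [this, pow_mul]; exact H.pow_mem (hν2 _) _
    have hyx' : (y * x) ^ n ∈ H := by
      have : n = ν (y * x) * (ν x * ν y * ν (x * y)) := by rw [hn]; ring
      rw [this, pow_mul]; exact H.pow_mem (hν2 _) _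
    have hb := le_mul_pow hO hxy n
    have h1 := hmono _ _ hxy' (H.mul_mem hx hy) hb.1
    have h2 := hmono _ _ (H.mul_mem hy hx) hxy' hb.2
    rw [hmul _ hx _ hy] at h1
    rw [hmul _ hy _ hx] at h2
    have h5 : ψ ((x * y) ^ n) = ψ (x ^ n) + ψ (y ^ n) := by omega
    have h6 : ψ ((y * x) ^ n) = ψ ((x * y) ^ n) := by
      have e : (y * x) ^ n = x⁻¹ * (x * y) ^ n * x⁻¹⁻¹ := by
        rw [← conj_pow]; congr 1; group
      rw [e]
      exact hinv _ _ hxy'
    rw [lam_eq (x * y) n hn1 hxy', lam_eq (y * x) n hn1 hyx', lam_eq x n hn1 hx,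
      lam_eq y n hn1 hy, h6, h5]
    push_cast
    constructor <;> ring
  have hadd : ∀ x y : F, lam (x * y) = lam x + lam y := by
    intro x y
    rcases hO.order.total (y * x) (x * y) with h | h
    · exact (key x y h).1
    · rw [(key y x h).2]; ring
  let L : F →* Multiplicative ℚ :=
    { toFun := fun g => Multiplicative.ofAdd (lam g)
      map_one' := by
        have h1 := hadd 1 1
        rw [mul_one] at h1
        have h2 : lam 1 = 0 := by linarith
        rw [h2]; rfl
      map_mul' := by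
        intro x y
        rw [hadd]; rfl }
  have h1 : commutator F ≤ L.ker := Abelianization.commutator_subset_ker L
  have h2 := h1 hc
  rw [MonoidHom.mem_ker] at h2
  have h3 : lam c = 0 := h2
  rw [lam_eq c 1 (le_refl 1) (by rw [pow_one]; exact hcH), pow_one, Nat.cast_one, div_one] at h3
  exact hne (by exact_mod_cast h3)

end noext

end Pool.Agent.Lib.H14I.EngelOrder
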