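import Pool.Agent.Lib.H14I.EngelCore
import Pool.Agent.Lib.H14I.EngelExt

/-!
# The answer to MP_f3e693_al for every nonabelian free group and every odd prime
-/

set_option autoImplicit false

universe u v

namespace Pool.Agent.Lib.H14I.EngelOrder

theorem iterComm_map {G : Type u} {E : Type v} [Group G] [Group E] (f : G →* E) (x y : G)
    (n : ℕ) : f (iterComm x y n) = iterComm (f x) (f y) n := by
  induction n with
  | zero => rfl
  | succ n ih =>
    change f (comm (iterComm x y n) y) = comm (iterComm (f x) (f y) n) (f y)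
    rw [← ih]
    unfold comm
    simp

theorem iterComm_eq {G : Type} [Group G] (x y : G) (n : ℕ) :
    iterComm x y n = Pool.Agent.H76.Ext.engelComm x y n := by
  induction n with
  | zero => rfl
  | succ n ih =>
    change comm (iterComm x y n) y = _
    rw [ih]
    unfold Pool.Agent.H76.Ext.engelComm
    rw [Function.iterate_succ_apply']
    rfl

theorem main {p : ℕ} (hp : p.Prime) (hp2 : p ≠ 2) (α : Type u) [Nontrivial α] :
    ∃ (H : Subgroup (FreeGroup α)) (_ : H.Normal),
      IsPGroup p (FreeGroup α ⧸ H) ∧ IsEngelGroup (FreeGroup α ⧸ H) ∧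
      ∃ le : H → H → Prop, IsOGroupOrder le ∧ ConjInvariant H le ∧
        ∀ le' : FreeGroup α → FreeGroup α → Prop, IsTotalOrder le' →
          (LeftInvariant le' ∨ RightInvariant le') → ¬ Extends H le' le := by
  classical
  obtain ⟨H₀, hn₀, ψ₀, h1, h2, h3, h4, c₀, hc₀, hcH₀, hne₀⟩ := core hp hp2
  obtain ⟨a, b, hab⟩ := exists_pair_ne α
  -- the retraction onto the free group of rank two
  let ρ : FreeGroup α →* FreeGroup (Fin 2) := FreeGroup.lift fun x =>
    if x = a then FreeGroup.of 0 else if x = b then FreeGroup.of 1 else 1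
  let σ : FreeGroup (Fin 2) →* FreeGroup α := FreeGroup.lift ![FreeGroup.of a, FreeGroup.of b]
  have hρσ : ∀ x, ρ (σ x) = x := by
    have h5 : ρ.comp σ = MonoidHom.id (FreeGroup (Fin 2)) := by
      apply FreeGroup.ext_hom
      intro i
      fin_cases i
      · simp [ρ, σ]
      · simp [ρ, σ, hab.symm]
    exact fun x => DFunLike.congr_fun h5 x
  let H : Subgroup (FreeGroup α) := H₀.comap ρ
  have hH : ∀ x, x ∈ H ↔ ρ x ∈ H₀ := fun x => Iff.rfl
  have hn : H.Normal := inferInstanceAs (H₀.comap ρ).Normal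
  let ψ : FreeGroup α → ℤ := fun x => ψ₀ (ρ x)
  have hmul : ∀ x ∈ H, ∀ y ∈ H, ψ (x * y) = ψ x + ψ y := by
    intro x hx y hy
    change ψ₀ (ρ (x * y)) = ψ₀ (ρ x) + ψ₀ (ρ y)
    rw [map_mul]
    exact h1 _ hx _ hy
  have hinv : ∀ g, ∀ x ∈ H, ψ (g * x * g⁻¹) = ψ x := by
    intro g x hx
    change ψ₀ (ρ (g * x * g⁻¹)) = ψ₀ (ρ x)
    rw [map_mul, map_mul, map_inv]
    exact h2 _ _ hx
  have htor : ∀ g, ∃ k : ℕ, g ^ (p ^ k) ∈ H := by
    intro g
    obtain ⟨k, hk⟩ := h3 (ρ g)
    refine ⟨k, ?_⟩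
    rw [hH, map_pow]
    exact hk
  have hper : ∀ g, ∃ n : ℕ, 1 ≤ n ∧ g ^ n ∈ H := by
    intro g
    obtain ⟨k, hk⟩ := htor g
    exact ⟨p ^ k, Nat.one_le_pow _ _ hp.pos, hk⟩
  have hcH : σ c₀ ∈ H := by
    rw [hH, hρσ]
    exact hcH₀
  have hc : σ c₀ ∈ commutator (FreeGroup α) := by
    have h5 : σ c₀ ∈ (commutator (FreeGroup (Fin 2))).map σ := Subgroup.mem_map_of_mem _ hc₀
    rw [commutator_def, Subgroup.map_commutator] at h5
    rw [commutator_def]
    exact Subgroup.commutator_mono le_top le_top h5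
  have hne : ψ (σ c₀) ≠ 0 := by
    change ψ₀ (ρ (σ c₀)) ≠ 0
    rw [hρσ]
    exact hne₀
  obtain ⟨P, hP⟩ := exists_cone_free α
  have hord : IsOGroupOrder (lexLe H P ψ) := lexLe_ogroup hP hmul hinv
  have hconj : ConjInvariant H (lexLe H P ψ) := lexLe_conj hP hmul hinv
  refine ⟨H, hn, ?_, ?_, lexLe H P ψ, hord, hconj, ?_⟩
  · intro x
    induction x using QuotientGroup.induction_on with | _ g
    obtain ⟨k, hk⟩ := htor g
    refine ⟨k, ?_⟩
    rw [← QuotientGroup.mk_pow, QuotientGroup.eq_one_iff]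
    exact hk
  · intro x y
    induction x using QuotientGroup.induction_on with | _ x
    induction y using QuotientGroup.induction_on with | _ y
    obtain ⟨n, hn1, hn2⟩ := h4 (ρ x) (ρ y)
    refine ⟨n, hn1, ?_⟩
    have h5 := iterComm_map (QuotientGroup.mk' H) x y n
    rw [QuotientGroup.mk'_apply, QuotientGroup.mk'_apply, QuotientGroup.mk'_apply] at h5
    rw [← h5, QuotientGroup.eq_one_iff, hH, iterComm_map, iterComm_eq]
    exact hn2
  · intro le' ho hlr hext
    rcases hlr with hl | hr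
    · exact no_ext hn hper hP hmul hinv hc hcH hne (ogroup_of_left hn hper hconj ho hl hext) hext
    · obtain ⟨h5, h6, h7⟩ := left_of_right hord ho hr hext
      exact no_ext hn hper hP hmul hinv hc hcH hne (ogroup_of_left hn hper hconj h5 h6 h7) h7

end Pool.Agent.Lib.H14I.EngelOrder
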