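import Mathlib

/-!
# Definitions for the answer to MP_f3e693_al

Commutators, Engel groups, total orders on groups, invariant orders on normal subgroups and
their extensions, exactly as in the problem file.
-/

set_option autoImplicit false

universe u v

namespace Pool.Agent.Lib.H14I.EngelOrder

/-- The commutator `[x, y] = x⁻¹ y⁻¹ x y`. -/
def comm {G : Type u} [Group G] (x y : G) : G := x⁻¹ * y⁻¹ * x * y

/-- The iterated commutator: `[x, ₀ y] = x` and `[x, ₙ₊₁ y] = [[x, ₙ y], y]`, so that
`[x, ₁ y] = [x, y]`. -/
def iterComm {G : Type u} [Group G] (x y : G) : ℕ → G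
  | 0 => x
  | n + 1 => comm (iterComm x y n) y

/-- `G` is an Engel group. -/
def IsEngelGroup (G : Type u) [Group G] : Prop :=
  ∀ x y : G, ∃ n : ℕ, 1 ≤ n ∧ iterComm x y n = 1

/-- `le` is a total order on `T`. -/
structure IsTotalOrder {T : Type u} (le : T → T → Prop) : Prop where
  refl : ∀ a, le a a
  trans : ∀ a b c, le a b → le b c → le a c
  antisymm : ∀ a b, le a b → le b a → a = b
  total : ∀ a b, le a b ∨ le b a

/-- The relation `le` is preserved by multiplication on the left: `a ≤ b` implies `c a ≤ c b`. -/
def LeftInvariant {G : Type u} [Group G] (le : G → G → Prop) : Prop :=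
  ∀ a b c : G, le a b → le (c * a) (c * b)

/-- The relation `le` is preserved by multiplication on the right: `a ≤ b` implies
`a c ≤ b c`. -/
def RightInvariant {G : Type u} [Group G] (le : G → G → Prop) : Prop :=
  ∀ a b c : G, le a b → le (a * c) (b * c)

/-- `le` is a total order which makes the group `G` an o-group. -/
structure IsOGroupOrder {G : Type u} [Group G] (le : G → G → Prop) : Prop where
  order : IsTotalOrder le
  left : LeftInvariant le
  right : RightInvariant le

/-- The relation `le` on the subgroup `H` of `F` is `F`-invariant: `a ≤ b` implies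
`f⁻¹ a f ≤ f⁻¹ b f` for all `f` in `F` (`a'` and `b'` are the elements `f⁻¹ a f` and `f⁻¹ b f`
of `H`). -/
def ConjInvariant {F : Type u} [Group F] (H : Subgroup F) (le : H → H → Prop) : Prop :=
  ∀ (f : F) (a b a' b' : H), (a' : F) = f⁻¹ * a * f → (b' : F) = f⁻¹ * b * f →
    le a b → le a' b'

/-- The relation `le'` on `F` extends the relation `le` on the subgroup `H`: the restriction of
`le'` to `H` is `le`. -/
def Extends {F : Type u} [Group F] (H : Subgroup F) (le' : F → F → Prop)
    (le : H → H → Prop) : Prop :=
  ∀ a b : H, le' (a : F) (b : F) ↔ le a b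

end Pool.Agent.Lib.H14I.EngelOrder
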