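import Pool.Agent.Lib.H14I.MinRankDefs
import Pool.Agent.Lib.Helper6.MinRank.Lex

/-!
Proof for MP_5893b4_co: the triangular minimal rank equals the minimal rank for bipartite chordal patterns.
-/

set_option autoImplicit false
set_option linter.unusedSectionVars false

namespace H14I.MinRank

universe u v w

variable {X : Type u} {Y : Type v} {F : Type w}

section Proof

open Pool.Agent.Lib.Helper6.MinRank

/-- A chord in the sense of vertices gives a chord in the sense of indices. -/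
lemma index_chord {V : Type*} {G : SimpleGraph V} (hG : BipartiteChordal G) (u : V)
    (c : G.Walk u u) (hc : c.IsCycle) (h6 : 6 ≤ c.length) :
    ∃ i j : ℕ, i + 1 < j ∧ j < c.length ∧ ¬ (i = 0 ∧ j + 1 = c.length) ∧
      G.Adj (c.getVert i) (c.getVert j) := by
  obtain ⟨x, y, hx, hy, hxy, hne⟩ := hG u c hc h6
  have key : ∀ z, z ∈ c.support → ∃ i, i < c.length ∧ c.getVert i = z := by
    intro z hz
    obtain ⟨n, hn, hnl⟩ := SimpleGraph.Walk.mem_support_iff_exists_getVert.1 hz
    rcases lt_or_eq_of_le hnl with h | h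
    · exact ⟨n, h, hn⟩
    · refine ⟨0, by omega, ?_⟩
      rw [SimpleGraph.Walk.getVert_zero, ← hn, h, SimpleGraph.Walk.getVert_length]
  have hedge : ∀ i, i < c.length → s(c.getVert i, c.getVert (i + 1)) ∈ c.edges := by
    intro i hi
    exact (SimpleGraph.Walk.mk_mem_edges_iff_exists c).2 ⟨i, hi, rfl⟩
  have main : ∀ i j, i < j → i < c.length → j < c.length → G.Adj (c.getVert i) (c.getVert j) →
      s(c.getVert i, c.getVert j) ∉ c.edges →
      ∃ i j : ℕ, i + 1 < j ∧ j < c.length ∧ ¬ (i = 0 ∧ j + 1 = c.length) ∧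
      G.Adj (c.getVert i) (c.getVert j) := by
    intro i j hij hi hj ha hn
    refine ⟨i, j, ?_, hj, ?_, ha⟩
    · by_contra h
      obtain rfl : j = i + 1 := by omega
      exact hn (hedge i hi)
    · rintro ⟨rfl, h⟩
      have h1 := hedge j hj
      rw [h, SimpleGraph.Walk.getVert_length, Sym2.eq_swap] at h1
      rw [SimpleGraph.Walk.getVert_zero] at hn
      exact hn h1
  obtain ⟨i, hi, rfl⟩ := key x hx
  obtain ⟨j, hj, rfl⟩ := key y hy
  rcases lt_trichotomy i j with h | h | h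
  · exact main i j h hi hj hxy hne
  · exact absurd hxy (by rw [h]; exact G.loopless.irrefl _)
  · exact main j i h hj hi hxy.symm (by rw [Sym2.eq_swap]; exact hne)

variable [Field F]

/-- The matrix with the known entries of `A` and zeros elsewhere. -/
noncomputable def fill (A : PartialMatrix X Y F) : Matrix X Y F := by
  classical
  exact fun i j => if h : (i, j) ∈ A.known then A.entry ⟨(i, j), h⟩ else 0

lemma fill_known (A : PartialMatrix X Y F) (p : A.known) : fill A p.1.1 p.1.2 = A.entry p := by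
  unfold fill
  exact dif_pos p.2

lemma isCompletion_iff (A : PartialMatrix X Y F) (B : Matrix X Y F) :
    IsCompletion A B ↔ ∀ p ∈ A.known, B p.1 p.2 = fill A p.1 p.2 := by
  constructor
  · intro h p hp
    rw [h ⟨p, hp⟩]
    exact (fill_known A ⟨p, hp⟩).symm
  · intro h p
    rw [h p.1 p.2]
    exact fill_known A p

lemma isCompletion_restrict_iff (A : PartialMatrix X Y F) {T : Set (X × Y)} (hT : T ⊆ A.known)
    (B : Matrix X Y F) :
    IsCompletion (A.restrict T hT) B ↔ ∀ p ∈ T, B p.1 p.2 = fill A p.1 p.2 := by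
  constructor
  · intro h p hp
    rw [h ⟨p, hp⟩]
    exact (fill_known A ⟨p, hT hp⟩).symm
  · intro h p
    rw [h p.1 p.2]
    exact fill_known A ⟨p.1, hT p.2⟩

variable [Fintype Y]

/-- Minimal completion rank of the part of `a` on the positions `T`. -/
noncomputable def mr (a : Matrix X Y F) (T : Set (X × Y)) : ℕ :=
  sInf {k : ℕ | ∃ B : Matrix X Y F, (∀ p ∈ T, B p.1 p.2 = a p.1 p.2) ∧ B.rank = k}

lemma minRank_eq (A : PartialMatrix X Y F) : minRank A = mr (fill A) A.known := by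
  unfold minRank mr
  simp only [isCompletion_iff]

lemma minRank_restrict_eq (A : PartialMatrix X Y F) {T : Set (X × Y)} (hT : T ⊆ A.known) :
    minRank (A.restrict T hT) = mr (fill A) T := by
  unfold minRank mr
  simp only [isCompletion_restrict_iff]

lemma mr_spec (a : Matrix X Y F) (T : Set (X × Y)) :
    ∃ B : Matrix X Y F, (∀ p ∈ T, B p.1 p.2 = a p.1 p.2) ∧ B.rank = mr a T := by
  have hne : {k : ℕ | ∃ B : Matrix X Y F,
      (∀ p ∈ T, B p.1 p.2 = a p.1 p.2) ∧ B.rank = k}.Nonempty :=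
    ⟨a.rank, a, fun _ _ => rfl, rfl⟩
  exact Nat.sInf_mem hne

lemma mr_le (a : Matrix X Y F) (T : Set (X × Y))
    (B : Matrix X Y F) (hB : ∀ p ∈ T, B p.1 p.2 = a p.1 p.2) : mr a T ≤ B.rank :=
  Nat.sInf_le ⟨B, hB, rfl⟩

lemma mr_mono (a : Matrix X Y F) {T T' : Set (X × Y)} (h : T ⊆ T') :
    mr a T ≤ mr a T' := by
  obtain ⟨B, hB, hr⟩ := mr_spec a T'
  rw [← hr]
  exact mr_le a T B (fun p hp => hB p (h hp))

/-- Triangular, written with pairs. -/
lemma triangular_iff (S : Set (X × Y)) :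
    Triangular S ↔ ∀ p ∈ S, ∀ q ∈ S, (p.1, q.2) ∈ S ∨ (q.1, p.2) ∈ S := by
  constructor
  · intro h p hp q hq
    exact h p.1 p.2 q.1 q.2 hp hq
  · intro h i j k l h1 h2
    exact h (i, j) h1 (k, l) h2

/-- The values used in the initial potential. -/
def vals (a : Matrix X Y F) (J : Set (X × Y)) (D : Set Y) : Set ℕ :=
  {r | ∃ T : Set (X × Y), T ⊆ J ∧ Triangular T ∧ (∀ p ∈ T, p.2 ∈ D) ∧ r = mr a T}

lemma vals_nonempty (a : Matrix X Y F) (J : Set (X × Y)) (D : Set Y) :
    (vals a J D).Nonempty :=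
  ⟨mr a ∅, ∅, Set.empty_subset _, fun _ _ _ _ h => absurd h (Set.notMem_empty _),
    fun _ h => absurd h (Set.notMem_empty _), rfl⟩

lemma vals_bdd (a : Matrix X Y F) (J : Set (X × Y)) (D : Set Y) :
    BddAbove (vals a J D) := by
  refine ⟨mr a J, ?_⟩
  rintro _ ⟨T, hT, -, -, rfl⟩
  exact mr_mono a hT

/-- The initial potential. -/
noncomputable def phi (a : Matrix X Y F) (J : Set (X × Y))
    (D : Set Y) : ℤ := ((sSup (vals a J D) : ℕ) : ℤ)

variable [Fintype X]

lemma phi_pot (a : Matrix X Y F) (J : Set (X × Y)) :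
    Pot J (fun i j => a i j) (phi a J) := by
  intro D' D hD
  obtain ⟨T', hT'J, hT'tri, hT'D, hT'⟩ := Nat.sSup_mem (vals_nonempty a J D') (vals_bdd a J D')
  rw [triangular_iff] at hT'tri
  set T : Set (X × Y) := T' ∪ {p | p.1 ∈ RJ J D ∧ p.2 ∈ D} with hT
  have hTJ : T ⊆ J := by
    rintro p (hp | ⟨hp1, hp2⟩)
    · exact hT'J hp
    · exact hp1 p.2 hp2
  have hTtri : Triangular T := by
    rw [triangular_iff]
    rintro p (hp | ⟨hp1, hp2⟩) q (hq | ⟨hq1, hq2⟩)
    · rcases hT'tri p hp q hq with h | h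
      · exact Or.inl (Or.inl h)
      · exact Or.inr (Or.inl h)
    · exact Or.inr (Or.inr ⟨hq1, hD (hT'D p hp)⟩)
    · exact Or.inl (Or.inr ⟨hp1, hD (hT'D q hq)⟩)
    · exact Or.inl (Or.inr ⟨hp1, hq2⟩)
  have hTD : ∀ p ∈ T, p.2 ∈ D := by
    rintro p (hp | ⟨-, hp2⟩)
    · exact hD (hT'D p hp)
    · exact hp2
  have h1 : mr a T ≤ sSup (vals a J D) :=
    le_csSup (vals_bdd a J D) ⟨T, hTJ, hTtri, hTD, rfl⟩
  obtain ⟨B, hB, hBr⟩ := mr_spec a T
  let B' : X → Y → F := fun i j => B i j
  -- the part of `B` on the columns in `D'`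
  have h2 : mr a T' ≤ rk B' Set.univ D' := by
    rw [rk_eq_rank]
    apply mr_le
    intro p hp
    rw [← hB p (Or.inl hp)]
    simp [mask, B', hT'D p hp]
  have h3 : rk B' Set.univ D ≤ mr a T := by
    have e1 := rk_mono_col B' Set.univ (Set.subset_univ D)
    have e2 : rk B' Set.univ Set.univ = B.rank := rk_univ B'
    omega
  have h4 : rk B' (RJ J D) D = rk (fun i j => a i j) (RJ J D) D :=
    rk_congr (fun i hi d hd => hB (i, d) (Or.inr ⟨hi, hd⟩))
  have h5 : rk B' (RJ J D) D' = rk (fun i j => a i j) (RJ J D) D' :=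
    rk_congr (fun i hi d hd => hB (i, d) (Or.inr ⟨hi, hD hd⟩))
  have h6 := rk_super B' (Set.subset_univ (RJ J D)) hD
  unfold phi
  omega

theorem mr_le_tmr (J : Set (X × Y)) (a : Matrix X Y F) (hJ : NoCyc J) :
    mr a J ≤ sSup (vals a J Set.univ) := by
  obtain ⟨p, q, hp, hq, hR, hC⟩ := exists_lex J
  have hGF := lex_GF hR hC hJ
  obtain ⟨B, hB1, hB2⟩ := exists_completion _ J (fun i j => a i j) (phi a J) p q hp hq hGF
    (phi_pot a J) rfl
  have h1 : mr a J ≤ (Matrix.of B).rank := mr_le a J (Matrix.of B) (fun e he => hB1 e.1 e.2 he)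
  have h2 : rk B Set.univ Set.univ = (Matrix.of B).rank := rk_univ B
  have h3 : (0 : ℤ) ≤ phi a J ∅ := by unfold phi; omega
  have h4 : phi a J Set.univ = ((sSup (vals a J Set.univ) : ℕ) : ℤ) := rfl
  omega

lemma noCyc_of_bipartiteChordal {J : Set (X × Y)} (h : BipartiteChordal (associatedGraph J)) :
    NoCyc J :=
  noCyc_of_chordal (associatedGraph J) (fun _ _ => Iff.rfl) (fun _ _ h => h) (fun _ _ h => h)
    (index_chord h)

/-- A maximal triangular subpattern with the same minimal rank. -/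
theorem exists_maximal_triangular (A : PartialMatrix X Y F)
    (hA : BipartiteChordal (associatedGraph A.known)) :
    ∃ (T : Set (X × Y)) (hT : IsMaximalTriangular A.known T),
      minRank (A.restrict T hT.1) = minRank A := by
  have hmain := mr_le_tmr A.known (fill A) (noCyc_of_bipartiteChordal hA)
  obtain ⟨T, hT1, hT2, -, hT3⟩ := Nat.sSup_mem (vals_nonempty (fill A) A.known Set.univ)
    (vals_bdd (fill A) A.known Set.univ)
  obtain ⟨T', h1, h2⟩ := (Set.toFinite {S : Set (X × Y) | S ⊆ A.known ∧ Triangular S}).exists_le_maximal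
      (show T ∈ {S : Set (X × Y) | S ⊆ A.known ∧ Triangular S} from ⟨hT1, hT2⟩)
  have hmax : IsMaximalTriangular A.known T' :=
    ⟨h2.prop.1, h2.prop.2, fun S hS1 hS2 hS3 => (h2.eq_of_subset ⟨hS1, hS2⟩ hS3).symm⟩
  refine ⟨T', hmax, ?_⟩
  rw [minRank_restrict_eq, minRank_eq]
  apply le_antisymm
  · exact mr_mono _ hmax.1
  · rw [hT3] at hmain
    exact hmain.trans (mr_mono _ h1)

/-- The triangular minimal rank equals the minimal rank for bipartite chordal patterns. -/
theorem triangularMinRank_eq (A : PartialMatrix X Y F)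
    (hA : BipartiteChordal (associatedGraph A.known)) : triangularMinRank A = minRank A := by
  obtain ⟨T, hT, hr⟩ := exists_maximal_triangular A hA
  have hbdd : ∀ r ∈ {r : ℕ | ∃ (T : Set (X × Y)) (hT : IsMaximalTriangular A.known T),
      r = minRank (A.restrict T hT.1)}, r ≤ minRank A := by
    rintro _ ⟨T', hT', rfl⟩
    rw [minRank_restrict_eq, minRank_eq]
    exact mr_mono _ hT'.1
  apply le_antisymm
  · exact csSup_le ⟨_, T, hT, rfl⟩ hbdd
  · rw [← hr]
    exact le_csSup ⟨_, hbdd⟩ ⟨T, hT, rfl⟩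

end Proof

end H14I.MinRank
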