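import Mathlib

/-!
Definitions for MP_5893b4_co: partial matrices, minimal rank, triangular minimal rank, bipartite chordal
graphs (any index types, any universes).
-/

set_option autoImplicit false

namespace H14I.MinRank

universe u v w

/-- A partial matrix: the set of the known positions and the specified entries. -/
structure PartialMatrix (X : Type u) (Y : Type v) (F : Type w) where
  /-- the pattern of knowns -/
  known : Set (X × Y)
  /-- the specified entries -/
  entry : known → F

variable {X : Type u} {Y : Type v} {F : Type w}

/-- `B` is a completion of `A`: it has the specified entries at the known positions. -/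
def IsCompletion (A : PartialMatrix X Y F) (B : Matrix X Y F) : Prop :=
  ∀ p : A.known, B p.1.1 p.1.2 = A.entry p

/-- The minimal rank of a completion. -/
noncomputable def minRank [Field F] [Fintype Y] (A : PartialMatrix X Y F) : ℕ :=
  sInf {k : ℕ | ∃ B : Matrix X Y F, IsCompletion A B ∧ B.rank = k}

/-- The partial matrix with pattern `T` and the same entries on `T`. -/
def PartialMatrix.restrict (A : PartialMatrix X Y F) (T : Set (X × Y)) (hT : T ⊆ A.known) :
    PartialMatrix X Y F where
  known := T
  entry p := A.entry ⟨p.1, hT p.2⟩

/-- Triangular patterns. -/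
def Triangular (T : Set (X × Y)) : Prop :=
  ∀ i j k l, (i, j) ∈ T → (k, l) ∈ T → (i, l) ∈ T ∨ (k, j) ∈ T

/-- `T` is a maximal triangular subpattern of `J`. -/
def IsMaximalTriangular (J T : Set (X × Y)) : Prop :=
  T ⊆ J ∧ Triangular T ∧ ∀ S : Set (X × Y), S ⊆ J → Triangular S → T ⊆ S → S = T

/-- The triangular minimal rank: the largest minimal rank of the restriction of `A` to a maximal
triangular subpattern of its pattern. -/
noncomputable def triangularMinRank [Field F] [Fintype Y] (A : PartialMatrix X Y F) : ℕ :=
  sSup {r : ℕ | ∃ (T : Set (X × Y)) (hT : IsMaximalTriangular A.known T),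
    r = minRank (A.restrict T hT.1)}

/-- The associated graph: a row `i` and a column `j` are adjacent when the position is known. -/
def associatedGraph (J : Set (X × Y)) : SimpleGraph (X ⊕ Y) where
  Adj
    | Sum.inl i, Sum.inr j => (i, j) ∈ J
    | Sum.inr j, Sum.inl i => (i, j) ∈ J
    | Sum.inl _, Sum.inl _ => False
    | Sum.inr _, Sum.inr _ => False
  symm := ⟨fun x y h => by
    rcases x with x | x <;> rcases y with y | y <;> exact h⟩
  loopless := ⟨fun x h => by rcases x with x | x <;> exact h⟩

/-- Bipartite chordal: every cycle of length at least six has a chord, that is, an edge of the graph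
which joins two vertices of the cycle and is not an edge of the cycle. -/
def BipartiteChordal {V : Type*} (G : SimpleGraph V) : Prop :=
  ∀ (u : V) (c : G.Walk u u), c.IsCycle → 6 ≤ c.length →
    ∃ x y : V, x ∈ c.support ∧ y ∈ c.support ∧ G.Adj x y ∧ s(x, y) ∉ c.edges

end H14I.MinRank
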